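import Pool.Agent.Helper61.BO.R1
import Pool.Agent.Helper66.BO.St2

/-!
Module R1P of THEOREM P (Beck-Fiala, MP_e8ee11_co): linear algebra of one round with a family of
ridges.
-/

namespace Pool.Agent.Helper61.BO

open Matrix Pool.Agent.Helper50.BO Pool.Agent.Helper66.BO

set_option linter.unusedSectionVars false

/-- Jensen for the square, weights of sum at most one -/
theorem sq_wsum_le {A : Type} [Fintype A] (w f : A → ℝ) (hw : ∀ x, 0 ≤ w x) (hs : ∑ x, w x ≤ 1) :
    (∑ x, w x * f x) ^ 2 ≤ ∑ x, w x * f x ^ 2 := by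
  have h := Finset.sum_mul_sq_le_sq_mul_sq Finset.univ (fun x => √(w x)) (fun x => √(w x) * f x)
  have e1 : ∑ x, √(w x) * (√(w x) * f x) = ∑ x, w x * f x :=
    Finset.sum_congr rfl fun x _ => by rw [← mul_assoc, Real.mul_self_sqrt (hw x)]
  have e2 : ∑ x, √(w x) ^ 2 = ∑ x, w x :=
    Finset.sum_congr rfl fun x _ => Real.sq_sqrt (hw x)
  have e3 : ∑ x, (√(w x) * f x) ^ 2 = ∑ x, w x * f x ^ 2 :=
    Finset.sum_congr rfl fun x _ => by rw [mul_pow, Real.sq_sqrt (hw x)]
  rw [e1, e2, e3] at h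
  have h0 : 0 ≤ ∑ x, w x * f x ^ 2 := Finset.sum_nonneg fun x _ => mul_nonneg (hw x) (sq_nonneg _)
  calc (∑ x, w x * f x) ^ 2 ≤ (∑ x, w x) * ∑ x, w x * f x ^ 2 := h
    _ ≤ 1 * ∑ x, w x * f x ^ 2 := mul_le_mul_of_nonneg_right hs h0
    _ = _ := one_mul _

/-- R1P: linear algebra of one round with a family of ridges. -/
theorem r1p_proof : R1P := by
  intro V J A _ _ _ _ _ a E R lam Λ β β0 τ B Λm Θ hER hA ha01 hτ hB hΛ hΛm hl1 hβ hβΛ hβ0 hβ0Λ
    hgood hdom hent hent0
  classical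
  have hl : ∀ x j, 0 < lam x j := fun x j => lt_of_lt_of_le one_pos (hl1 x j)
  have hΛ0 : ∀ x, 0 < Λ x := fun x => lt_of_lt_of_le one_pos (hΛ x)
  set N : A → Matrix J J ℝ := fun x => (Matrix.diagonal (lam x) + Gm a R)⁻¹ with hN
  set L : A → (J → ℝ) → ℝ := fun x => lv (Matrix.diagonal (lam x) + Gm a R) with hL
  set G : V → Finset A := fun u => Finset.univ.filter fun x => Λ x * L x (a u) ≤ τ with hG
  have hcA : 0 < (Fintype.card A : ℝ) := by
    exact_mod_cast Fintype.card_pos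
  -- weights
  set w : A → V → ℝ := fun x u => if u ∈ E ∧ x ∈ G u then 1 / ((G u).card : ℝ) else 0 with hw
  have hw0 : ∀ x u, 0 ≤ w x u := by
    intro x u
    simp only [hw]
    split_ifs
    · positivity
    · exact le_rfl
  have hwE : ∀ x u, u ∉ E → w x u = 0 := by
    intro x u hu
    simp [hw, hu]
  have hwG : ∀ x u, w x u ≠ 0 → u ∈ E ∧ Λ x * L x (a u) ≤ τ := by
    intro x u hx
    simp only [hw] at hx
    by_contra hcon
    apply hx
    rw [if_neg]
    intro hh
    exact hcon ⟨hh.1, (Finset.mem_filter.mp hh.2).2⟩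
  have hGc : ∀ u ∈ E, (Fintype.card A : ℝ) ≤ 2 * (G u).card := by
    intro u hu
    have := hgood u hu
    exact_mod_cast this
  have hwA : ∀ x u, w x u ≤ 2 / (Fintype.card A : ℝ) := by
    intro x u
    simp only [hw]
    split_ifs with h
    · have h1 := hGc u h.1
      have h2 : 0 < ((G u).card : ℝ) := by linarith
      rw [div_le_div_iff₀ h2 hcA]
      linarith
    · positivity
  have hw1 : ∀ u ∈ E, ∑ x, w x u = 1 := by
    intro u hu
    have h1 := hGc u hu
    have h2 : 0 < ((G u).card : ℝ) := by linarith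
    simp only [hw, hu, true_and]
    rw [Finset.sum_ite_mem, Finset.univ_inter, Finset.sum_const, nsmul_eq_mul]
    field_simp
  have hwle : ∀ u, ∑ x, w x u ≤ 1 := by
    intro u
    by_cases hu : u ∈ E
    · exact (hw1 u hu).le
    · rw [Finset.sum_eq_zero (fun x _ => hwE x u hu)]
      exact zero_le_one
  -- energies
  have hen : ∀ x (y : J → ℝ), ∑ j, lam x j * (N x *ᵥ y) j ^ 2
      + ∑ v ∈ R, (a v ⬝ᵥ (N x *ᵥ y)) ^ 2 = L x y := fun x y => energy a R (lam x) (hl x) y
  have hdomx : ∀ x (y : J → ℝ), ∑ u ∈ E, (a u ⬝ᵥ (N x *ᵥ y)) ^ 2 ≤ B * L x y := by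
    intro x y
    refine le_trans (hdom _) (mul_le_mul_of_nonneg_left ?_ hB)
    rw [← hen x y]
    have : ∑ j, (N x *ᵥ y) j ^ 2 ≤ ∑ j, lam x j * (N x *ᵥ y) j ^ 2 := by
      refine Finset.sum_le_sum fun j _ => ?_
      nlinarith [sq_nonneg ((N x *ᵥ y) j), hl1 x j]
    linarith
  -- single terms of the energy
  have hres : ∀ x (y : J → ℝ) j, lam x j * (N x *ᵥ y) j ^ 2 ≤ L x y := by
    intro x y j
    have h1 : lam x j * (N x *ᵥ y) j ^ 2 ≤ ∑ j, lam x j * (N x *ᵥ y) j ^ 2 :=
      Finset.single_le_sum (f := fun j => lam x j * (N x *ᵥ y) j ^ 2)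
        (fun i _ => mul_nonneg (hl x i).le (sq_nonneg _)) (Finset.mem_univ j)
    have h2 : 0 ≤ ∑ v ∈ R, (a v ⬝ᵥ (N x *ᵥ y)) ^ 2 := Finset.sum_nonneg fun v _ => sq_nonneg _
    linarith [hen x y]
  have hK2 : ∀ x (y : J → ℝ), ∑ v ∈ R, (a v ⬝ᵥ (N x *ᵥ y)) ^ 2 ≤ L x y := by
    intro x y
    have h1 : 0 ≤ ∑ j, lam x j * (N x *ᵥ y) j ^ 2 :=
      Finset.sum_nonneg fun i _ => mul_nonneg (hl x i).le (sq_nonneg _)
    linarith [hen x y]
  have hLgood : ∀ x u, w x u ≠ 0 → L x (a u) ≤ τ / Λ x := by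
    intro x u hx
    rw [le_div_iff₀ (hΛ0 x), mul_comm]
    exact (hwG x u hx).2
  have hrow : ∀ x (y : J → ℝ) j, y j - ∑ v ∈ R, a v j * (a v ⬝ᵥ (N x *ᵥ y))
      = lam x j * (N x *ᵥ y) j := fun x y j => row_identity a R (lam x) (hl x) y j
  -- entry bounds
  have hR1 : ∀ x u j, w x u ≠ 0 → |lam x j * (N x *ᵥ a u) j| ≤ √(lam x j * τ / Λ x) := by
    intro x u j hx
    rw [← Real.sqrt_sq_eq_abs]
    refine Real.sqrt_le_sqrt ?_
    calc (lam x j * (N x *ᵥ a u) j) ^ 2 = lam x j * (lam x j * (N x *ᵥ a u) j ^ 2) := by ring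
      _ ≤ lam x j * (τ / Λ x) :=
          mul_le_mul_of_nonneg_left (le_trans (hres x _ j) (hLgood x u hx)) (hl x j).le
      _ = lam x j * τ / Λ x := by ring
  have hR2 : ∀ x u j, w x u ≠ 0 → |lam x j * (N x *ᵥ a u) j| ≤
      1 + √(((R.filter fun v => a v j ≠ 0).card : ℝ) * τ / Λ x) := by
    intro x u j hx
    rw [← hrow x (a u) j]
    have h1 : |a u j| ≤ 1 := by
      rcases ha01 u j with h | h <;> simp [h]
    have h2 : |∑ v ∈ R, a v j * (a v ⬝ᵥ (N x *ᵥ a u))|
        ≤ √(((R.filter fun v => a v j ≠ 0).card : ℝ) * τ / Λ x) := by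
      rw [← Real.sqrt_sq_eq_abs]
      refine Real.sqrt_le_sqrt ?_
      have e1 : ∑ v ∈ R, a v j * (a v ⬝ᵥ (N x *ᵥ a u))
          = ∑ v ∈ R.filter (fun v => a v j ≠ 0), 1 * (a v ⬝ᵥ (N x *ᵥ a u)) := by
        rw [Finset.sum_filter]
        refine Finset.sum_congr rfl fun v _ => ?_
        rcases ha01 v j with h | h <;> simp [h]
      have h3 := Finset.sum_mul_sq_le_sq_mul_sq (R.filter (fun v => a v j ≠ 0)) (fun _ => (1 : ℝ))
        (fun v => a v ⬝ᵥ (N x *ᵥ a u))
      have h4 : ∑ v ∈ R.filter (fun v => a v j ≠ 0), (a v ⬝ᵥ (N x *ᵥ a u)) ^ 2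
          ≤ ∑ v ∈ R, (a v ⬝ᵥ (N x *ᵥ a u)) ^ 2 :=
        Finset.sum_le_sum_of_subset_of_nonneg (Finset.filter_subset _ _)
          fun v _ _ => sq_nonneg _
      rw [e1]
      refine le_trans h3 ?_
      have e2 : ∑ v ∈ R.filter (fun v => a v j ≠ 0), (1 : ℝ) ^ 2
          = ((R.filter fun v => a v j ≠ 0).card : ℝ) := by simp
      rw [e2, mul_div_assoc]
      exact mul_le_mul_of_nonneg_left (le_trans h4 (le_trans (hK2 x _) (hLgood x u hx)))
        (Nat.cast_nonneg _)
    calc |a u j - ∑ v ∈ R, a v j * (a v ⬝ᵥ (N x *ᵥ a u))|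
        ≤ |a u j| + |∑ v ∈ R, a v j * (a v ⬝ᵥ (N x *ᵥ a u))| := abs_sub _ _
      _ ≤ _ := add_le_add h1 h2
  have hΘ : 0 ≤ Θ := by
    obtain ⟨x⟩ := hA
    exact le_trans (mul_nonneg hβ0 (Real.sqrt_nonneg _)) (hent0 x)
  -- definition of the correction
  refine ⟨fun r u => match r with
        | Sum.inl j => β j * ∑ x, w x u * (lam x j * (N x *ᵥ a u) j)
        | Sum.inr v => if v ∈ R then β0 * ∑ x, w x u * (a v ⬝ᵥ (N x *ᵥ a u)) else 0,
    ?_, ?_, ?_, ?_, ?_, ?_⟩
  · -- support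
    intro r u hu
    cases r with
    | inl j =>
      simp only
      rw [Finset.sum_eq_zero (fun x _ => by rw [hwE x u hu, zero_mul]), mul_zero]
    | inr v =>
      simp only
      rw [Finset.sum_eq_zero (fun x _ => by rw [hwE x u hu, zero_mul]), mul_zero, ite_self]
  · -- columns
    intro u
    simp only [Fintype.sum_sum_type]
    have h1 : ∑ j, (β j * ∑ x, w x u * (lam x j * (N x *ᵥ a u) j)) ^ 2
        ≤ ∑ x, w x u * (Λ x * ∑ j, lam x j * (N x *ᵥ a u) j ^ 2) := by
      have h2 : ∀ j, (β j * ∑ x, w x u * (lam x j * (N x *ᵥ a u) j)) ^ 2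
          ≤ ∑ x, w x u * (Λ x * (lam x j * (N x *ᵥ a u) j ^ 2)) := by
        intro j
        rw [mul_pow]
        calc β j ^ 2 * (∑ x, w x u * (lam x j * (N x *ᵥ a u) j)) ^ 2
            ≤ β j ^ 2 * ∑ x, w x u * (lam x j * (N x *ᵥ a u) j) ^ 2 :=
              mul_le_mul_of_nonneg_left (sq_wsum_le _ _ (fun x => hw0 x u) (hwle u)) (sq_nonneg _)
          _ = ∑ x, w x u * ((β j ^ 2 * lam x j) * (lam x j * (N x *ᵥ a u) j ^ 2)) := by
              rw [Finset.mul_sum]
              exact Finset.sum_congr rfl fun x _ => by ring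
          _ ≤ _ := by
              refine Finset.sum_le_sum fun x _ => mul_le_mul_of_nonneg_left ?_ (hw0 x u)
              exact mul_le_mul_of_nonneg_right (hβΛ x j)
                (mul_nonneg (hl x j).le (sq_nonneg _))
      calc _ ≤ ∑ j, ∑ x, w x u * (Λ x * (lam x j * (N x *ᵥ a u) j ^ 2)) :=
            Finset.sum_le_sum fun j _ => h2 j
        _ = _ := by
            rw [Finset.sum_comm]
            refine Finset.sum_congr rfl fun x _ => ?_
            rw [Finset.mul_sum, Finset.mul_sum]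
    have h3 : ∑ v, (if v ∈ R then β0 * ∑ x, w x u * (a v ⬝ᵥ (N x *ᵥ a u)) else 0) ^ 2
        ≤ ∑ x, w x u * (Λ x * ∑ v ∈ R, (a v ⬝ᵥ (N x *ᵥ a u)) ^ 2) := by
      have e1 : ∑ v, (if v ∈ R then β0 * ∑ x, w x u * (a v ⬝ᵥ (N x *ᵥ a u)) else 0) ^ 2
          = ∑ v ∈ R, (β0 * ∑ x, w x u * (a v ⬝ᵥ (N x *ᵥ a u))) ^ 2 := by
        have : ∀ v, (if v ∈ R then β0 * ∑ x, w x u * (a v ⬝ᵥ (N x *ᵥ a u)) else 0) ^ 2
            = if v ∈ R then (β0 * ∑ x, w x u * (a v ⬝ᵥ (N x *ᵥ a u))) ^ 2 else 0 := by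
          intro v
          split_ifs
          · rfl
          · norm_num
        rw [Finset.sum_congr rfl fun v _ => this v, Finset.sum_ite_mem, Finset.univ_inter]
      rw [e1]
      have h2 : ∀ v ∈ R, (β0 * ∑ x, w x u * (a v ⬝ᵥ (N x *ᵥ a u))) ^ 2
          ≤ ∑ x, w x u * (Λ x * (a v ⬝ᵥ (N x *ᵥ a u)) ^ 2) := by
        intro v _
        rw [mul_pow]
        calc β0 ^ 2 * (∑ x, w x u * (a v ⬝ᵥ (N x *ᵥ a u))) ^ 2
            ≤ β0 ^ 2 * ∑ x, w x u * (a v ⬝ᵥ (N x *ᵥ a u)) ^ 2 :=
              mul_le_mul_of_nonneg_left (sq_wsum_le _ _ (fun x => hw0 x u) (hwle u)) (sq_nonneg _)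
          _ = ∑ x, w x u * (β0 ^ 2 * (a v ⬝ᵥ (N x *ᵥ a u)) ^ 2) := by
              rw [Finset.mul_sum]
              exact Finset.sum_congr rfl fun x _ => by ring
          _ ≤ _ := by
              refine Finset.sum_le_sum fun x _ => mul_le_mul_of_nonneg_left ?_ (hw0 x u)
              exact mul_le_mul_of_nonneg_right (hβ0Λ x) (sq_nonneg _)
      calc _ ≤ ∑ v ∈ R, ∑ x, w x u * (Λ x * (a v ⬝ᵥ (N x *ᵥ a u)) ^ 2) := Finset.sum_le_sum h2
        _ = _ := by
            rw [Finset.sum_comm]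
            refine Finset.sum_congr rfl fun x _ => ?_
            rw [Finset.mul_sum, Finset.mul_sum]
    calc _ ≤ ∑ x, w x u * (Λ x * ∑ j, lam x j * (N x *ᵥ a u) j ^ 2)
          + ∑ x, w x u * (Λ x * ∑ v ∈ R, (a v ⬝ᵥ (N x *ᵥ a u)) ^ 2) := add_le_add h1 h3
      _ = ∑ x, w x u * (Λ x * L x (a u)) := by
          rw [← Finset.sum_add_distrib]
          refine Finset.sum_congr rfl fun x _ => ?_
          rw [← hen x (a u)]
          ring
      _ ≤ ∑ x, w x u * τ := by
          refine Finset.sum_le_sum fun x _ => ?_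
          by_cases hx : w x u = 0
          · rw [hx, zero_mul, zero_mul]
          · exact mul_le_mul_of_nonneg_left (hwG x u hx).2 (hw0 x u)
      _ = (∑ x, w x u) * τ := by rw [Finset.sum_mul]
      _ ≤ 1 * τ := mul_le_mul_of_nonneg_right (hwle u) hτ
      _ = τ := one_mul _
  · -- rows
    have key : ∀ (b : ℝ) (f : A → V → ℝ) (p : A → ℝ), (∀ x, 0 ≤ p x) →
        (∀ x, b ^ 2 * ∑ u ∈ E, f x u ^ 2 ≤ B * Λ x) →
        ∑ u, (b * ∑ x, w x u * f x u) ^ 2 ≤ 2 * B * Λm := by
      intro b f p _ hf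
      have h1 : ∀ u, (b * ∑ x, w x u * f x u) ^ 2
          ≤ if u ∈ E then 2 / (Fintype.card A : ℝ) * ∑ x, b ^ 2 * f x u ^ 2 else 0 := by
        intro u
        split_ifs with hu
        · rw [mul_pow, Finset.mul_sum]
          calc b ^ 2 * (∑ x, w x u * f x u) ^ 2 ≤ b ^ 2 * ∑ x, w x u * f x u ^ 2 :=
                mul_le_mul_of_nonneg_left (sq_wsum_le _ _ (fun x => hw0 x u) (hwle u))
                  (sq_nonneg _)
            _ ≤ b ^ 2 * ∑ x, 2 / (Fintype.card A : ℝ) * f x u ^ 2 :=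
                mul_le_mul_of_nonneg_left (Finset.sum_le_sum fun x _ =>
                  mul_le_mul_of_nonneg_right (hwA x u) (sq_nonneg _)) (sq_nonneg _)
            _ = _ := by
                rw [Finset.mul_sum]
                exact Finset.sum_congr rfl fun x _ => by ring
        · rw [Finset.sum_eq_zero (fun x _ => by rw [hwE x u hu, zero_mul])]
          norm_num
      calc _ ≤ ∑ u, (if u ∈ E then 2 / (Fintype.card A : ℝ) * ∑ x, b ^ 2 * f x u ^ 2 else 0) :=
            Finset.sum_le_sum fun u _ => h1 u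
        _ = ∑ x, 2 / (Fintype.card A : ℝ) * (b ^ 2 * ∑ u ∈ E, f x u ^ 2) := by
            rw [Finset.sum_ite_mem, Finset.univ_inter]
            simp only [Finset.mul_sum]
            rw [Finset.sum_comm]
        _ ≤ ∑ x : A, 2 / (Fintype.card A : ℝ) * (B * Λm) := by
            refine Finset.sum_le_sum fun x _ => mul_le_mul_of_nonneg_left ?_ (by positivity)
            exact le_trans (hf x) (mul_le_mul_of_nonneg_left (hΛm x) hB)
        _ = 2 * B * Λm := by
            rw [Finset.sum_const, Finset.card_univ, nsmul_eq_mul]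
            field_simp
    intro r
    cases r with
    | inl j =>
      refine key (β j) (fun x u => lam x j * (N x *ᵥ a u) j) (fun _ => 0) (fun _ => le_rfl) ?_
      intro x
      have h1 : ∀ u, (N x *ᵥ a u) j = a u ⬝ᵥ (N x *ᵥ (Pi.single j 1 : J → ℝ)) := by
        intro u
        simp only [hN]
        rw [inv_symm a R (lam x) (hl x), single_one_dotProduct]
      have hs := lam_lv_single a R (lam x) (hl x) j
      calc β j ^ 2 * ∑ u ∈ E, (lam x j * (N x *ᵥ a u) j) ^ 2
          = (β j ^ 2 * lam x j) * (lam x j *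
              ∑ u ∈ E, (a u ⬝ᵥ (N x *ᵥ (Pi.single j 1 : J → ℝ))) ^ 2) := by
            simp only [Finset.mul_sum]
            refine Finset.sum_congr rfl fun u _ => ?_
            rw [h1]
            ring
        _ ≤ (β j ^ 2 * lam x j) * (lam x j * (B * L x (Pi.single j 1))) :=
            mul_le_mul_of_nonneg_left (mul_le_mul_of_nonneg_left (hdomx x _) (hl x j).le)
              (mul_nonneg (sq_nonneg _) (hl x j).le)
        _ = (β j ^ 2 * lam x j) * (B * (lam x j * L x (Pi.single j 1))) := by ring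
        _ ≤ (β j ^ 2 * lam x j) * (B * 1) :=
            mul_le_mul_of_nonneg_left (mul_le_mul_of_nonneg_left hs hB)
              (mul_nonneg (sq_nonneg _) (hl x j).le)
        _ ≤ Λ x * (B * 1) := mul_le_mul_of_nonneg_right (hβΛ x j) (by linarith)
        _ = B * Λ x := by ring
    | inr v =>
      by_cases hv : v ∈ R
      · simp only [hv, if_true]
        refine key β0 (fun x u => a v ⬝ᵥ (N x *ᵥ a u)) (fun _ => 0) (fun _ => le_rfl) ?_
        intro x
        have h1 : ∀ u, a v ⬝ᵥ (N x *ᵥ a u) = a u ⬝ᵥ (N x *ᵥ a v) := fun u =>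
          inv_symm a R (lam x) (hl x) _ _
        have hs := lv_le_one a R (lam x) (hl x) hv
        calc β0 ^ 2 * ∑ u ∈ E, (a v ⬝ᵥ (N x *ᵥ a u)) ^ 2
            = β0 ^ 2 * ∑ u ∈ E, (a u ⬝ᵥ (N x *ᵥ a v)) ^ 2 := by
              congr 1
              exact Finset.sum_congr rfl fun u _ => by rw [h1]
          _ ≤ β0 ^ 2 * (B * L x (a v)) :=
              mul_le_mul_of_nonneg_left (hdomx x _) (sq_nonneg _)
          _ ≤ β0 ^ 2 * (B * 1) :=
              mul_le_mul_of_nonneg_left (mul_le_mul_of_nonneg_left hs hB) (sq_nonneg _)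
          _ ≤ Λ x * (B * 1) := mul_le_mul_of_nonneg_right (hβ0Λ x) (by linarith)
          _ = B * Λ x := by ring
      · simp only [hv, if_false]
        obtain ⟨x⟩ := hA
        have : 0 ≤ Λm := le_trans (hΛ0 x).le (hΛm x)
        have : 0 ≤ 2 * B * Λm := by positivity
        simpa using this
  · -- entries
    intro r u
    by_cases hu : u ∈ E
    · cases r with
      | inl j =>
        simp only
        rw [abs_mul, abs_of_nonneg (hβ j)]
        refine le_trans (mul_le_mul_of_nonneg_left ?_ (hβ j)) (hent j)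
        rw [Finset.mul_sum]
        refine le_trans (Finset.abs_sum_le_sum_abs _ _) (Finset.sum_le_sum fun x _ => ?_)
        rw [abs_mul, abs_of_nonneg (hw0 x u)]
        by_cases hx : w x u = 0
        · rw [hx, zero_mul]
          positivity
        · exact mul_le_mul (hwA x u) (le_min (hR1 x u j hx) (hR2 x u j hx)) (abs_nonneg _)
            (by positivity)
      | inr v =>
        simp only
        split_ifs with hv
        · rw [abs_mul, abs_of_nonneg hβ0]
          have h1 : |∑ x, w x u * (a v ⬝ᵥ (N x *ᵥ a u))| ≤ ∑ x, w x u * √(τ / Λ x) := by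
            refine le_trans (Finset.abs_sum_le_sum_abs _ _) (Finset.sum_le_sum fun x _ => ?_)
            rw [abs_mul, abs_of_nonneg (hw0 x u)]
            by_cases hx : w x u = 0
            · rw [hx, zero_mul, zero_mul]
            · refine mul_le_mul_of_nonneg_left ?_ (hw0 x u)
              rw [← Real.sqrt_sq_eq_abs]
              refine Real.sqrt_le_sqrt (le_trans ?_ (le_trans (hK2 x (a u)) (hLgood x u hx)))
              exact Finset.single_le_sum (f := fun v => (a v ⬝ᵥ (N x *ᵥ a u)) ^ 2)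
                (fun _ _ => sq_nonneg _) hv
          calc β0 * |∑ x, w x u * (a v ⬝ᵥ (N x *ᵥ a u))|
              ≤ β0 * ∑ x, w x u * √(τ / Λ x) := mul_le_mul_of_nonneg_left h1 hβ0
            _ = ∑ x, w x u * (β0 * √(τ / Λ x)) := by
                rw [Finset.mul_sum]
                exact Finset.sum_congr rfl fun x _ => by ring
            _ ≤ ∑ x, w x u * Θ := Finset.sum_le_sum fun x _ =>
                mul_le_mul_of_nonneg_left (hent0 x) (hw0 x u)
            _ = Θ := by rw [← Finset.sum_mul, hw1 u hu, one_mul]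
        · rw [abs_zero]
          exact hΘ
    · cases r with
      | inl j =>
        simp only
        rw [Finset.sum_eq_zero (fun x _ => by rw [hwE x u hu, zero_mul]), mul_zero, abs_zero]
        exact hΘ
      | inr v =>
        simp only
        rw [Finset.sum_eq_zero (fun x _ => by rw [hwE x u hu, zero_mul]), mul_zero, ite_self,
          abs_zero]
        exact hΘ
  · -- rows which do not meet the round
    intro j hj u
    simp only
    by_cases hu : u ∈ E
    · rw [Finset.sum_eq_zero, mul_zero]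
      intro x _
      have := vanish a R (lam x) (hl x) (x := a u) (j := j)
        (fun v hv => hj v (Finset.mem_union_right _ hv)) (hj u (Finset.mem_union_left _ hu))
      simp only [hN]
      rw [this, mul_zero, mul_zero]
    · rw [Finset.sum_eq_zero (fun x _ => by rw [hwE x u hu, zero_mul]), mul_zero]
  · -- displacements
    intro ξ
    refine ⟨fun v => if v ∈ R then - ∑ u ∈ E, ξ u * ∑ x, w x u * (a v ⬝ᵥ (N x *ᵥ a u)) else 0,
      ?_, ?_, ?_⟩
    · intro v hv
      simp [hv]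
    · intro v
      by_cases hv : v ∈ R
      · simp only [hv, if_true]
        rw [abs_neg]
        have e1 : ∑ u, β0 * (∑ x, w x u * (a v ⬝ᵥ (N x *ᵥ a u))) * ξ u
            = β0 * ∑ u ∈ E, ξ u * ∑ x, w x u * (a v ⬝ᵥ (N x *ᵥ a u)) := by
          rw [← Finset.sum_subset (Finset.subset_univ E), Finset.mul_sum]
          · exact Finset.sum_congr rfl fun u _ => by ring
          · intro u _ hu
            rw [Finset.sum_eq_zero (fun x _ => by rw [hwE x u hu, zero_mul]), mul_zero, zero_mul]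
        rw [e1, abs_mul, abs_of_nonneg hβ0]
      · simp [hv]
    · intro j
      have e1 : ∑ u, β j * (∑ x, w x u * (lam x j * (N x *ᵥ a u) j)) * ξ u
          = β j * ∑ u ∈ E, ξ u * ∑ x, w x u * (lam x j * (N x *ᵥ a u) j) := by
        rw [← Finset.sum_subset (Finset.subset_univ E), Finset.mul_sum]
        · exact Finset.sum_congr rfl fun u _ => by ring
        · intro u _ hu
          rw [Finset.sum_eq_zero (fun x _ => by rw [hwE x u hu, zero_mul]), mul_zero, zero_mul]
      have e2 : ∑ v ∈ R, a v j *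
          (if v ∈ R then - ∑ u ∈ E, ξ u * ∑ x, w x u * (a v ⬝ᵥ (N x *ᵥ a u)) else 0)
          = - ∑ u ∈ E, ξ u * ∑ x, w x u * ∑ v ∈ R, a v j * (a v ⬝ᵥ (N x *ᵥ a u)) := by
        have : ∀ v ∈ R, a v j *
          (if v ∈ R then - ∑ u ∈ E, ξ u * ∑ x, w x u * (a v ⬝ᵥ (N x *ᵥ a u)) else 0)
            = - ∑ u ∈ E, ∑ x, ξ u * (w x u * (a v j * (a v ⬝ᵥ (N x *ᵥ a u)))) := by
          intro v hv
          rw [if_pos hv, mul_neg, Finset.mul_sum]
          congr 1
          refine Finset.sum_congr rfl fun u _ => ?_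
          simp only [Finset.mul_sum]
          exact Finset.sum_congr rfl fun x _ => by ring
        rw [Finset.sum_congr rfl this, Finset.sum_neg_distrib, Finset.sum_comm]
        congr 1
        refine Finset.sum_congr rfl fun u _ => ?_
        rw [Finset.sum_comm]
        simp only [Finset.mul_sum]
      rw [e1, e2]
      congr 1
      rw [← sub_eq_add_neg, ← Finset.sum_sub_distrib]
      refine Finset.sum_congr rfl fun u hu => ?_
      have h3 : ∀ x, lam x j * (N x *ᵥ a u) j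
          = a u j - ∑ v ∈ R, a v j * (a v ⬝ᵥ (N x *ᵥ a u)) := fun x => (hrow x (a u) j).symm
      have h4 : ∑ x, w x u * (lam x j * (N x *ᵥ a u) j)
          = a u j - ∑ x, w x u * ∑ v ∈ R, a v j * (a v ⬝ᵥ (N x *ᵥ a u)) := by
        have : ∀ x, w x u * (lam x j * (N x *ᵥ a u) j)
            = w x u * a u j - w x u * ∑ v ∈ R, a v j * (a v ⬝ᵥ (N x *ᵥ a u)) := by
          intro x
          rw [h3 x]
          ring
        rw [Finset.sum_congr rfl fun x _ => this x, Finset.sum_sub_distrib, ← Finset.sum_mul,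
          hw1 u hu, one_mul]
      rw [h4]
      ring

end Pool.Agent.Helper61.BO
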