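import Pool.Agent.Helper50.BO.St

/-!
Module R1 of THEOREM O (Beck-Fiala, MP_e8ee11_co): linear algebra of one round.
-/

namespace Pool.Agent.Helper61.BO

open Matrix Pool.Agent.Helper50.BO

set_option linter.unusedSectionVars false

variable {V J : Type} [Fintype V] [Fintype J] [DecidableEq V] [DecidableEq J]

/-- the Gram matrix applied to a vector -/
theorem gm_mulVec (a : V → J → ℝ) (R : Finset V) (y : J → ℝ) (j : J) :
    (Gm a R *ᵥ y) j = ∑ v ∈ R, a v j * (a v ⬝ᵥ y) := by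
  classical
  unfold Gm
  rw [Matrix.sum_mulVec, Finset.sum_apply]
  refine Finset.sum_congr rfl fun v _ => ?_
  simp only [Matrix.mulVec, Matrix.vecMulVec_apply, dotProduct, Finset.mul_sum]
  exact Finset.sum_congr rfl fun i _ => by ring

/-- quadratic form of the Gram matrix -/
theorem gm_quad (a : V → J → ℝ) (R : Finset V) (y : J → ℝ) :
    y ⬝ᵥ (Gm a R *ᵥ y) = ∑ v ∈ R, (a v ⬝ᵥ y) ^ 2 := by
  classical
  have : ∀ j, y j * (Gm a R *ᵥ y) j = ∑ v ∈ R, (y j * a v j) * (a v ⬝ᵥ y) := by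
    intro j
    rw [gm_mulVec, Finset.mul_sum]
    exact Finset.sum_congr rfl fun v _ => by ring
  unfold dotProduct at *
  rw [Finset.sum_congr rfl fun j _ => this j, Finset.sum_comm]
  refine Finset.sum_congr rfl fun v _ => ?_
  rw [← Finset.sum_mul, sq]
  congr 1
  exact Finset.sum_congr rfl fun i _ => by ring

/-- quadratic form of ridge plus Gram matrix -/
theorem quad (a : V → J → ℝ) (R : Finset V) (lam : J → ℝ) (y : J → ℝ) :
    y ⬝ᵥ ((Matrix.diagonal lam + Gm a R) *ᵥ y)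
      = ∑ j, lam j * y j ^ 2 + ∑ v ∈ R, (a v ⬝ᵥ y) ^ 2 := by
  classical
  rw [Matrix.add_mulVec, dotProduct_add, gm_quad]
  congr 1
  simp only [dotProduct, Matrix.mulVec_diagonal]
  exact Finset.sum_congr rfl fun i _ => by ring

theorem gm_symm (a : V → J → ℝ) (R : Finset V) : (Gm a R)ᵀ = Gm a R := by
  classical
  unfold Gm
  rw [Matrix.transpose_sum]
  refine Finset.sum_congr rfl fun v _ => ?_
  ext i j
  simp [Matrix.vecMulVec_apply, mul_comm]

theorem ridge_symm (a : V → J → ℝ) (R : Finset V) (lam : J → ℝ) :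
    (Matrix.diagonal lam + Gm a R)ᵀ = Matrix.diagonal lam + Gm a R := by
  rw [Matrix.transpose_add, gm_symm, Matrix.diagonal_transpose]

/-- ridge plus Gram matrix is positive definite -/
theorem ridge_posDef (a : V → J → ℝ) (R : Finset V) (lam : J → ℝ) (hl : ∀ j, 0 < lam j) :
    (Matrix.diagonal lam + Gm a R).PosDef := by
  classical
  refine Matrix.PosDef.of_dotProduct_mulVec_pos ?_ ?_
  · rw [Matrix.IsHermitian, Matrix.conjTranspose_eq_transpose_of_trivial]
    exact ridge_symm a R lam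
  · intro x hx
    rw [star_trivial, quad]
    obtain ⟨j, hj⟩ := Function.ne_iff.mp hx
    have h1 : 0 < ∑ j, lam j * x j ^ 2 := by
      refine Finset.sum_pos' (fun i _ => mul_nonneg (hl i).le (sq_nonneg _))
        ⟨j, Finset.mem_univ _, mul_pos (hl j) ?_⟩
      have hj' : x j ≠ 0 := by simpa using hj
      positivity
    have h2 : 0 ≤ ∑ v ∈ R, (a v ⬝ᵥ x) ^ 2 := Finset.sum_nonneg fun v _ => sq_nonneg _
    linarith

section inv

variable (a : V → J → ℝ) (R : Finset V) (lam : J → ℝ) (hl : ∀ j, 0 < lam j)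

include hl

/-- the inverse is an inverse -/
theorem mul_inv_vec (y : J → ℝ) :
    (Matrix.diagonal lam + Gm a R) *ᵥ ((Matrix.diagonal lam + Gm a R)⁻¹ *ᵥ y) = y := by
  have h := (ridge_posDef a R lam hl).isUnit
  rw [Matrix.mulVec_mulVec, Matrix.mul_nonsing_inv _ ((Matrix.isUnit_iff_isUnit_det _).mp h),
    Matrix.one_mulVec]

/-- the inverse is symmetric -/
theorem inv_symm (x y : J → ℝ) :
    x ⬝ᵥ ((Matrix.diagonal lam + Gm a R)⁻¹ *ᵥ y)
      = y ⬝ᵥ ((Matrix.diagonal lam + Gm a R)⁻¹ *ᵥ x) := by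
  have h : ((Matrix.diagonal lam + Gm a R)⁻¹)ᵀ = (Matrix.diagonal lam + Gm a R)⁻¹ := by
    rw [Matrix.transpose_nonsing_inv, ridge_symm]
  rw [Matrix.dotProduct_mulVec, ← Matrix.mulVec_transpose, h, dotProduct_comm]

/-- the energy of the solution is the leverage -/
theorem energy (x : J → ℝ) :
    ∑ j, lam j * ((Matrix.diagonal lam + Gm a R)⁻¹ *ᵥ x) j ^ 2
      + ∑ v ∈ R, (a v ⬝ᵥ ((Matrix.diagonal lam + Gm a R)⁻¹ *ᵥ x)) ^ 2
      = lv (Matrix.diagonal lam + Gm a R) x := by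
  rw [← quad, mul_inv_vec a R lam hl, dotProduct_comm]
  rfl

/-- the leverage of a reserve element is at most one -/
theorem lv_le_one {v : V} (hv : v ∈ R) : lv (Matrix.diagonal lam + Gm a R) (a v) ≤ 1 := by
  have h := energy a R lam hl (a v)
  have h1 : 0 ≤ ∑ j, lam j * ((Matrix.diagonal lam + Gm a R)⁻¹ *ᵥ a v) j ^ 2 :=
    Finset.sum_nonneg fun j _ => mul_nonneg (hl j).le (sq_nonneg _)
  have h2 : (a v ⬝ᵥ ((Matrix.diagonal lam + Gm a R)⁻¹ *ᵥ a v)) ^ 2
      ≤ ∑ w ∈ R, (a w ⬝ᵥ ((Matrix.diagonal lam + Gm a R)⁻¹ *ᵥ a v)) ^ 2 :=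
    Finset.single_le_sum (f := fun w => (a w ⬝ᵥ ((Matrix.diagonal lam + Gm a R)⁻¹ *ᵥ a v)) ^ 2)
      (fun w _ => sq_nonneg _) hv
  have h3 : (lv (Matrix.diagonal lam + Gm a R) (a v)) ^ 2
      ≤ lv (Matrix.diagonal lam + Gm a R) (a v) := by
    unfold lv at h ⊢
    linarith
  nlinarith

/-- diagonal entries of the inverse -/
theorem lam_lv_single (j : J) :
    lam j * lv (Matrix.diagonal lam + Gm a R) (Pi.single j 1) ≤ 1 := by
  have h := energy a R lam hl (Pi.single j 1)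
  have h0 : ((Matrix.diagonal lam + Gm a R)⁻¹ *ᵥ (Pi.single j 1 : J → ℝ)) j
      = lv (Matrix.diagonal lam + Gm a R) (Pi.single j 1) := by
    unfold lv
    rw [single_one_dotProduct]
  have h1 : lam j * ((Matrix.diagonal lam + Gm a R)⁻¹ *ᵥ (Pi.single j 1 : J → ℝ)) j ^ 2
      ≤ ∑ i, lam i * ((Matrix.diagonal lam + Gm a R)⁻¹ *ᵥ (Pi.single j 1 : J → ℝ)) i ^ 2 :=
    Finset.single_le_sum
      (f := fun i => lam i * ((Matrix.diagonal lam + Gm a R)⁻¹ *ᵥ (Pi.single j 1 : J → ℝ)) i ^ 2)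
      (fun i _ => mul_nonneg (hl i).le (sq_nonneg _)) (Finset.mem_univ j)
  have h2 : 0 ≤ ∑ w ∈ R,
      (a w ⬝ᵥ ((Matrix.diagonal lam + Gm a R)⁻¹ *ᵥ (Pi.single j 1 : J → ℝ))) ^ 2 :=
    Finset.sum_nonneg fun _ _ => sq_nonneg _
  rw [h0] at h1
  set l := lv (Matrix.diagonal lam + Gm a R) (Pi.single j 1) with hldef
  have h3 : lam j * l ^ 2 ≤ l := by linarith
  have h4 : (lam j * l) ^ 2 ≤ lam j * l := by
    have := mul_le_mul_of_nonneg_left h3 (hl j).le
    calc (lam j * l) ^ 2 = lam j * (lam j * l ^ 2) := by ring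
      _ ≤ lam j * l := this
  nlinarith

/-- rows which do not meet anything get no residual -/
theorem vanish {x : J → ℝ} {j : J} (hR : ∀ v ∈ R, a v j = 0) (hx : x j = 0) :
    ((Matrix.diagonal lam + Gm a R)⁻¹ *ᵥ x) j = 0 := by
  have h := congrFun (mul_inv_vec a R lam hl x) j
  rw [Matrix.add_mulVec, Pi.add_apply, gm_mulVec, Matrix.mulVec_diagonal, hx,
    Finset.sum_eq_zero (fun v hv => by rw [hR v hv, zero_mul]), add_zero] at h
  exact (mul_eq_zero.mp h).resolve_left (hl j).ne'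

/-- the row identity -/
theorem row_identity (s : J → ℝ) (j : J) :
    s j - ∑ v ∈ R, a v j * (a v ⬝ᵥ ((Matrix.diagonal lam + Gm a R)⁻¹ *ᵥ s))
      = lam j * ((Matrix.diagonal lam + Gm a R)⁻¹ *ᵥ s) j := by
  have h := congrFun (mul_inv_vec a R lam hl s) j
  rw [Matrix.add_mulVec, Pi.add_apply, gm_mulVec, Matrix.mulVec_diagonal] at h
  linarith

end inv

/-- R1: linear algebra of one round. -/
theorem r1_proof : R1 := by
  intro V J _ _ _ _ a E R lam Λ τ B hER hΛ hτ hB hl1 hlΛ hlev hdom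
  have hl : ∀ j, 0 < lam j := fun j => lt_of_lt_of_le one_pos (hl1 j)
  have hΛ0 : 0 < Λ := lt_of_lt_of_le one_pos hΛ
  set N := (Matrix.diagonal lam + Gm a R)⁻¹ with hN
  -- domination with the solution of a vector
  have hdomx : ∀ x : J → ℝ, ∑ u ∈ E, (a u ⬝ᵥ (N *ᵥ x)) ^ 2
      ≤ B * lv (Matrix.diagonal lam + Gm a R) x := by
    intro x
    rw [← energy a R lam hl x]
    exact hdom _
  refine ⟨fun r u => if u ∈ E then
      (match r with
        | Sum.inl j => √(Λ * lam j) * (N *ᵥ a u) j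
        | Sum.inr v => if v ∈ R then √Λ * (a v ⬝ᵥ (N *ᵥ a u)) else 0) else 0,
    ?_, ?_, ?_, ?_, ?_⟩
  · intro r u hu
    simp [hu]
  · intro u
    by_cases hu : u ∈ E
    · simp only [hu, if_true, Fintype.sum_sum_type]
      have h1 : ∑ j, (√(Λ * lam j) * (N *ᵥ a u) j) ^ 2
          = Λ * ∑ j, lam j * (N *ᵥ a u) j ^ 2 := by
        rw [Finset.mul_sum]
        refine Finset.sum_congr rfl fun j _ => ?_
        rw [mul_pow, Real.sq_sqrt (mul_nonneg hΛ0.le (hl j).le)]
        ring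
      have h2 : ∑ v, (if v ∈ R then √Λ * (a v ⬝ᵥ (N *ᵥ a u)) else 0) ^ 2
          = Λ * ∑ v ∈ R, (a v ⬝ᵥ (N *ᵥ a u)) ^ 2 := by
        rw [Finset.mul_sum, ← Finset.sum_filter_add_sum_filter_not Finset.univ (fun v => v ∈ R)]
        have e1 : ∑ v ∈ Finset.univ.filter (fun v => ¬ v ∈ R),
            (if v ∈ R then √Λ * (a v ⬝ᵥ (N *ᵥ a u)) else 0) ^ 2 = 0 := by
          refine Finset.sum_eq_zero fun v hv => ?_
          rw [if_neg (Finset.mem_filter.mp hv).2]
          norm_num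
        rw [e1, add_zero, Finset.filter_mem_eq_inter, Finset.univ_inter]
        refine Finset.sum_congr rfl fun v hv => ?_
        rw [if_pos hv, mul_pow, Real.sq_sqrt hΛ0.le]
      rw [h1, h2, ← mul_add, energy a R lam hl]
      have h3 := hlev u hu
      calc Λ * lv (Matrix.diagonal lam + Gm a R) (a u) ≤ Λ * (τ / Λ) :=
            mul_le_mul_of_nonneg_left h3 hΛ0.le
        _ = τ := by field_simp
    · simp [hu, hτ]
  · intro r
    have hsum : ∀ f : V → ℝ, ∑ u, (if u ∈ E then f u else 0) ^ 2 = ∑ u ∈ E, f u ^ 2 := by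
      intro f
      rw [← Finset.sum_filter_add_sum_filter_not Finset.univ (fun v => v ∈ E)]
      have e1 : ∑ v ∈ Finset.univ.filter (fun v => ¬ v ∈ E),
          (if v ∈ E then f v else 0) ^ 2 = 0 := by
        refine Finset.sum_eq_zero fun v hv => ?_
        rw [if_neg (Finset.mem_filter.mp hv).2]
        norm_num
      rw [e1, add_zero, Finset.filter_mem_eq_inter, Finset.univ_inter]
      exact Finset.sum_congr rfl fun v hv => by rw [if_pos hv]
    rw [hsum]
    cases r with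
    | inl j =>
      have h1 : ∀ u, (N *ᵥ a u) j = a u ⬝ᵥ (N *ᵥ (Pi.single j 1 : J → ℝ)) := by
        intro u
        rw [hN, inv_symm a R lam hl, single_one_dotProduct]
      calc ∑ u ∈ E, (√(Λ * lam j) * (N *ᵥ a u) j) ^ 2
          = (Λ * lam j) * ∑ u ∈ E, (a u ⬝ᵥ (N *ᵥ (Pi.single j 1 : J → ℝ))) ^ 2 := by
            rw [Finset.mul_sum]
            refine Finset.sum_congr rfl fun u _ => ?_
            rw [mul_pow, Real.sq_sqrt (mul_nonneg hΛ0.le (hl j).le), h1]
        _ ≤ (Λ * lam j) * (B * lv (Matrix.diagonal lam + Gm a R) (Pi.single j 1)) :=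
            mul_le_mul_of_nonneg_left (hdomx _) (mul_nonneg hΛ0.le (hl j).le)
        _ = (B * Λ) * (lam j * lv (Matrix.diagonal lam + Gm a R) (Pi.single j 1)) := by ring
        _ ≤ (B * Λ) * 1 :=
            mul_le_mul_of_nonneg_left (lam_lv_single a R lam hl j) (mul_nonneg hB hΛ0.le)
        _ = B * Λ := mul_one _
    | inr v =>
      by_cases hv : v ∈ R
      · simp only [hv, if_true]
        have h1 : ∀ u, a v ⬝ᵥ (N *ᵥ a u) = a u ⬝ᵥ (N *ᵥ a v) := fun u =>
          inv_symm a R lam hl _ _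
        calc ∑ u ∈ E, (√Λ * (a v ⬝ᵥ (N *ᵥ a u))) ^ 2
            = Λ * ∑ u ∈ E, (a u ⬝ᵥ (N *ᵥ a v)) ^ 2 := by
              rw [Finset.mul_sum]
              refine Finset.sum_congr rfl fun u _ => ?_
              rw [mul_pow, Real.sq_sqrt hΛ0.le, h1]
          _ ≤ Λ * (B * lv (Matrix.diagonal lam + Gm a R) (a v)) :=
              mul_le_mul_of_nonneg_left (hdomx _) hΛ0.le
          _ = (B * Λ) * lv (Matrix.diagonal lam + Gm a R) (a v) := by ring
          _ ≤ (B * Λ) * 1 :=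
              mul_le_mul_of_nonneg_left (lv_le_one a R lam hl hv) (mul_nonneg hB hΛ0.le)
          _ = B * Λ := mul_one _
      · simp only [hv, if_false]
        simpa using mul_nonneg hB hΛ0.le
  · intro j hj u
    by_cases hu : u ∈ E
    · simp only [hu, if_true]
      rw [hN, vanish a R lam hl (fun v hv => hj v (Finset.mem_union_right _ hv))
        (hj u (Finset.mem_union_left _ hu)), mul_zero]
    · simp [hu]
  · intro ξ
    set s : J → ℝ := fun j => ∑ u ∈ E, a u j * ξ u with hs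
    have hNs : ∀ j, (N *ᵥ s) j = ∑ u ∈ E, (N *ᵥ a u) j * ξ u := by
      intro j
      simp only [Matrix.mulVec, dotProduct, hs, Finset.mul_sum, Finset.sum_mul]
      rw [Finset.sum_comm]
      exact Finset.sum_congr rfl fun u _ => Finset.sum_congr rfl fun i _ => by ring
    have hdot : ∀ w : J → ℝ, w ⬝ᵥ (N *ᵥ s) = ∑ u ∈ E, (w ⬝ᵥ (N *ᵥ a u)) * ξ u := by
      intro w
      simp only [dotProduct, hNs, Finset.mul_sum, Finset.sum_mul]
      rw [Finset.sum_comm]
      exact Finset.sum_congr rfl fun u _ => Finset.sum_congr rfl fun i _ => by ring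
    have hsumE : ∀ f : V → ℝ, ∑ u, (if u ∈ E then f u else 0) * ξ u = ∑ u ∈ E, f u * ξ u := by
      intro f
      simp only [ite_mul, zero_mul]
      rw [Finset.sum_ite_mem, Finset.univ_inter]
    refine ⟨fun v => if v ∈ R then - (a v ⬝ᵥ (N *ᵥ s)) else 0, ?_, ?_, ?_⟩
    · intro v hv
      simp [hv]
    · intro v
      rw [hsumE]
      by_cases hv : v ∈ R
      · simp only [hv, if_true]
        rw [abs_neg, hdot]
        have : ∑ u ∈ E, √Λ * (a v ⬝ᵥ (N *ᵥ a u)) * ξ u
            = √Λ * ∑ u ∈ E, (a v ⬝ᵥ (N *ᵥ a u)) * ξ u := by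
          rw [Finset.mul_sum]
          exact Finset.sum_congr rfl fun u _ => by ring
        rw [this, abs_mul, abs_of_nonneg (Real.sqrt_nonneg Λ)]
      · simp [hv]
    · intro j
      rw [hsumE]
      have h1 : ∑ v ∈ R, a v j * (if v ∈ R then - (a v ⬝ᵥ (N *ᵥ s)) else 0)
          = - ∑ v ∈ R, a v j * (a v ⬝ᵥ (N *ᵥ s)) := by
        rw [← Finset.sum_neg_distrib]
        refine Finset.sum_congr rfl fun v hv => ?_
        rw [if_pos hv]
        ring
      have h2 : ∑ u ∈ E, √(Λ * lam j) * (N *ᵥ a u) j * ξ u = √(Λ * lam j) * (N *ᵥ s) j := by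
        rw [hNs, Finset.mul_sum]
        exact Finset.sum_congr rfl fun u _ => by ring
      have h3 : √(lam j / Λ) * √(Λ * lam j) = lam j := by
        rw [← Real.sqrt_mul (div_nonneg (hl j).le hΛ0.le)]
        have : lam j / Λ * (Λ * lam j) = lam j ^ 2 := by field_simp
        rw [this, Real.sqrt_sq (hl j).le]
      have h4 := row_identity a R lam hl s j
      rw [← hN] at h4
      rw [h1, h2, ← mul_assoc, h3, ← h4]
      ring

end Pool.Agent.Helper61.BO
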